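import Mathlib
import Pool.Agent.Y649.DG.Main
import Pool.Agent.Y649.DG.Incl
import Pool.Agent.Q330.DG.ZT

/-!
# Exact triangle: formulas with determinant gates

The input consists of the `3 n ^ 2` weights of a complete tripartite graph with three parts of `n`
vertices; the weights are integers between `- (n + 1)` and `n + 1`. The question is whether there is a
triangle of weight zero. The items of the input are the single weights.

A formula (`Fml`) is built from real constants, arbitrary real functions of one item, and arbitrary real
functions of `w` words, where each word is a function of one item with `q` values, by the gates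

* `pos`: is the value positive? (`1` or `0`),
* `sym`: any fan-in, any real function of the number of positive inputs,
* `det`: the determinant of a real matrix of any order whose entries are formulas (sums and products
  are determinants of order two),
* `reg`: is the matrix over an arbitrary field `K`, of any order, whose entry `(a, b)` is `c' a b` or
  `c a b`, according to whether the formula `(a, b)` is positive or not, regular? (`1` or `0`).

The size is the number of the leaves which are not constants, plus the number of wires which lead to
gates `sym`. So constants and the orders of the matrices are free. The formula accepts if its value is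
positive. Such formulas contain (without increase in size) the nondeterministic networks whose edges
are guarded by real formulas, and these may be nested.

We show that random formulas of size at most `s` with error probability at most `1 / 3` need
`n ^ 5 ≤ 10 ^ 7 c w ^ 3 (log₂ n) s ^ 2` if the words have `c log₂ n` bits, that is, size of order
`n ^ (5 / 2) / √(log n)`, for an input of `3 n ^ 2` numbers.

Proof. Each of the `n ^ 2` weights between the first two parts can ask for `n` bits stored in the other
weights (`Pool.Agent.Y638.RF.ZT.asks`). If `r` leaves see an item, then the other parts of the formula enter a determinant with `r` live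
entries only through `O (r ^ 2)` numbers (Schur complement), so `2 ^ O (r ^ 2 log n)` functions of the
item arise when the other items are fixed (Warren's theorem, and the theorem of Rónyai, Babai and
Ganapathy for the fields `K`; `Pool.Agent.Y649.DG.bound`).
-/

set_option autoImplicit false

namespace Pool.Agent.Results.MP_62fbe0_lc.DeterminantGates

open Pool.Agent.TH697.Form (IsProb)
open Pool.Agent.TH697.Row (ApproximatesOn)
open Pool.Agent.Y638.RF.ZT (InRange zeroTri)
open Pool.Agent.Y638.RF (Net)
open Pool.Agent.Y649.DG (Fml)

theorem result :
    (∀ n c w : ℕ, 100 ≤ n → 1 ≤ c → 1 ≤ w →
      ∀ (Ω : Type) [Fintype Ω] (μ : Ω → ℝ), IsProb μ →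
      ∀ (s : ℕ) (F : Ω → Fml (Fin 3 × Fin n × Fin n) (fun _ => ℤ) w (n ^ c)),
        (∀ ω, (F ω).size ≤ s) →
        ApproximatesOn μ (fun ω => (F ω).accepts) InRange zeroTri →
        (n : ℝ) ^ 5 ≤ 10000000 * c * w ^ 3 * Real.logb 2 n * s ^ 2) ∧
    (∀ (ι : Type) (D : ι → Type) (w q : ℕ) (N : Net ι D w q),
      ∃ F : Fml ι D w q, F.size ≤ N.size ∧ ∀ x, F.accepts x = N.eval x) :=
  ⟨fun n c w hn hc hw Ω _ μ hμ s F hs hF =>
    Pool.Agent.Q330.DG.ZT.zt Pool.Agent.Y649.DG.bound n c w hn hc hw Ω μ hμ s F hs hF,
    fun _ _ _ _ N => Pool.Agent.Y649.DG.exists_of_net N⟩

end Pool.Agent.Results.MP_62fbe0_lc.DeterminantGates
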