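import Pool.Agent.Q330.RX.Bound

/-!
# Exact triangles: branching programs which test real formulas

A tripartite graph with three parts of `n` vertices has integral edge weights in `[-n, n]`. Is there
a triangle of weight zero? The items of the input are the weights of all edges at `i`, for each
vertex `i` of the first part, and the matrix of the weights between the other two parts.

A real formula (`Fml`) is built from real constants, arbitrary real functions of one item, and
arbitrary real functions of `w` words of length `c log₂ n`, where each word is an arbitrary
function of one item, by sums, products, sign tests `pos` (with the values `0`, `1`), and gates `sym`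
of any fan-in whose value is an arbitrary real function of the number of positive inputs. So it may
contain threshold gates of unbounded fan-in with arbitrary real weights, gates which test the sign of
arithmetic formulas, and arbitrary symmetric gates, nested in any way. It accepts if its value is
positive. Its size is the number of leaves (constants are free) plus the number of wires which lead to
gates `sym`. In a branching program (`Program`) every inner node tests whether a real formula accepts;
its size is the number of inner nodes plus the sizes of all these formulas. A formula is a program
with one inner node.

We show that random branching programs of size at most `s` with error probability at most `1 / 3` need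
`n ^ 3 ≤ 150000 c w ^ 2 s`. Exhaustive search is a program with one inner node of size `4 n ^ 3 + 1`
(for all weights), so this is optimal up to a constant factor.

Proof. We count the functions of the weights at `i` which arise when the other numbers are fixed
(Nechiporuk's method); by Warren's theorem there are `n ^ O (r)` of them on `n ^ O (1)` values of the
item, if `r` leaves see the item (`Pool.Agent.Y638.RF.Prog`). We need queries with polynomially many
values which ask for `n ^ 2 log n` bits: for each vertex `k` of the second part and each of
`2 ^ a`, `a = ⌊log₂ n⌋ - 5`, labels `u` a word of `b = ⌊log₂ n⌋` bits is stored, by the weight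
`-(u + 1)` of the edge from `k` to the vertex of the third part whose number is this word. The weights
at `i` ask whether the label `u` is found at a vertex of the third part which belongs to a dyadic
interval; this is the next bit of the word, unless two labels have the same word, which happens only
for a small fraction of the bits (at most `1 / 32`).
-/

set_option autoImplicit false

namespace Pool.Agent.Results.MP_62fbe0_lc.RealPrograms

open Pool.Agent.TH697.Form (IsProb)
open Pool.Agent.TH697.Row (ApproximatesOn)
open Pool.Agent.TH697.Form.ET (Item InRange zeroTri)
open Pool.Agent.Y638.RF (Program exists_program)

theorem result :
    (∀ n c w : ℕ, 1024 ≤ n → 1 ≤ c → 1 ≤ w →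
      ∀ (Ω : Type) [Fintype Ω] (μ : Ω → ℝ), IsProb μ →
        ∀ (s : ℕ) (B : Ω → Program (Option (Fin n)) (Item n) w (n ^ c) s),
          ApproximatesOn μ (fun ω => (B ω).eval) (InRange n n) (zeroTri n) →
          (n : ℝ) ^ 3 ≤ 150000 * c * w ^ 2 * s) ∧
    (∀ n w q : ℕ, ∃ B : Program (Option (Fin n)) (Item n) w q (4 * n ^ 3 + 1),
      B.nodes = 1 ∧ ∀ x, B.eval x = zeroTri n x) := by
  refine ⟨fun _ _ _ hn hc hw _ _ μ hμ s B hB =>
    Pool.Agent.Q330.RX.program_bound hn hc hw μ hμ s B hB, fun n w q => ?_⟩
  obtain ⟨F, h1, h2⟩ := Pool.Agent.Q330.RX.upper n w q
  obtain ⟨B, h3, h4⟩ := exists_program F (4 * n ^ 3 + 1) (by omega)
  exact ⟨B, h3, fun x => (h4 x).trans (h2 x)⟩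

end Pool.Agent.Results.MP_62fbe0_lc.RealPrograms
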