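import Pool.Agent.Q330.SH.TriMain

/-!
# Exact triangles: nondeterministic verifiers with slow heads

Exact Triangle for graphs in three parts of `N` vertices: the input consists of three `N × N`
matrices of integers, `w 0 i j` (parts 1 and 2), `w 1 j k` (parts 2 and 3) and `w 2 i k` (parts 1
and 3), and the question is whether `w 0 i j + w 1 j k + w 2 i k = 0` for some `i, j, k`.  The word
`word ρ w` over the alphabet `ℤ` contains the three matrices one after the other; the matrix `r` is
stored row by row if `ρ r` is true and column by column otherwise (eight layouts).

The model (`HeadProg` of a starting file): a nonuniform nondeterministic program with `k` two-way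
heads; a head moves by at most one cell in a step; there is a finite set of states, and the moves
are arbitrary relations of the state, the positions of all heads and the integers under the heads,
so that arbitrary arithmetic with the integers under the heads is free.  The number of
configurations (states times positions) is at most `2 ^ S`, i.e. `S` bits of memory.

Theorem: let the program certify the absence of zero triangles, i.e. for matrices with entries 0
and 1, some computation of at most `T` steps accepts if there is no zero triangle, and no
computation accepts if there is one.  Then `N ^ 3 ≤ 1024 * k * (S + 1) * (T + N)`, for each of the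
eight layouts.  In particular, every deterministic or nondeterministic (or zero-error randomized)
program of this kind with polylogarithmic memory and polylogarithmically many heads needs almost
`N ^ 3` steps, although the entries are only 0 and 1.
-/

set_option autoImplicit false

namespace Pool.Agent.Results.MP_62fbe0_lc.SlowHeads

open Pool.Agent.TH457.HT Pool.Agent.Q330.SH

theorem result (N k : ℕ) (hk : 1 ≤ k) (ρ : Fin 3 → Bool) (P : HeadProg ℤ (3 * (N * N)) k)
    (T S : ℕ) (hS : Fintype.card P.Q * (3 * (N * N)) ^ k ≤ 2 ^ S)
    (hacc : ∀ w : Fin 3 → Fin N → Fin N → ℤ, (∀ r i j, w r i j = 0 ∨ w r i j = 1) →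
      (¬ ∃ i j k, w 0 i j + w 1 j k + w 2 i k = 0) → P.AcceptsIn T (Tri.word ρ w))
    (hrej : ∀ w : Fin 3 → Fin N → Fin N → ℤ, (∀ r i j, w r i j = 0 ∨ w r i j = 1) →
      (∃ i j k, w 0 i j + w 1 j k + w 2 i k = 0) → ¬ P.Accepts (Tri.word ρ w)) :
    N ^ 3 ≤ 1024 * k * (S + 1) * (T + N) :=
  Tri.tri_bound ρ P T S hk hS hacc hrej

end Pool.Agent.Results.MP_62fbe0_lc.SlowHeads
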