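import Pool.Agent.Q330.TWE.Main

/-!
# Exact triangle by word circuits: number of reads and treewidth

The input is, as in the problem, a symmetric `n × n` matrix, `n = m + 1`, of pairs (flag, weight) with
integral weights of absolute value at most `n ^ 300`; is there a triangle of weight zero? We consider
straight-line programs for such inputs (`WCirc`): each of the gates holds a word (an element of a finite
set `Z`, for instance the words of `w` bits), and computes an ARBITRARY function of at most `κ` cells of
the matrix and words of earlier gates. The relevant parameters are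

* the number of reads `C.reads`: the number of wires from cells to gates; this is a lower bound for
  the running time,
* the treewidth `θ` of the graph of the gates (whose edges are the wires between gates; the cells
  are deleted). A program with few registers has small treewidth, but a circuit of small treewidth
  may use arbitrarily many words at the same time.

**Result.** If a circuit with `C.reads ≤ r m (m + 1) / 2` decides exact triangle, and the words (and the
number `m`) fit in `w` bits, then `m ^ (m / 2 ^ (24 r + 1)) ≤ 2 ^ (w · 10000 r² (κ + 1) (θ + 1)) + 1`.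

So, if `w = O (log n)` and `κ` is constant, the treewidth is at least `n / 2 ^ (25 r + O (1))`; in
other words: with treewidth at most `n ^ (1 - ε)` one needs `Ω (ε n² log n)` reads, although the matrix
has only `n²` cells. The same holds for the expected number of reads of random circuits that are always
correct. For nondeterministic circuits that accept exactly the matrices without a triangle of weight
zero the same trade-off holds with `2` instead of the first `m`.

**Proof.** There is a vertex `v` such that only `O (r n)` of the reads are reads of cells at `v`. All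
other cells get fixed values: all edges `{x, y}` not at `v` are present, and the weight is a multiple
of a large number by a code of the pair. Now the circuit reads only the `m` weights at `v`. It is cut
into `O (r²)` parts with few reads in each of them by the removal of `O (r² (θ + 1))` gates; by
averaging there are sets `A` and `E` of `m / 2 ^ O (r)` edges at `v` and a division of the parts into
two sides such that `A` is read on the first side only, and `E` on the second side only
(`Pool.Agent.Y631.Wc.bounds`). The weights of the `j`-th edge `{v, x_j}` of `A` and of the `j`-th edge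
`{v, y_j}` of `E` are chosen such that the triangle `v x_j y_j` has the weight `a_j - b_j`, and all
other triangles have weights different from zero. So there is a triangle of weight zero iff `a_j = b_j`
for some `j`.
-/

set_option autoImplicit false

namespace Pool.Agent.Results.MP_62fbe0_lc.TreewidthTimesReads

open Pool.Agent.Y631.Wc Pool.Agent.Q330.TWE

/-- (A) Let `C` be a word circuit for the matrices of graphs with `m + 1` vertices, whose gates have
fan-in at most `κ` and values in `Z`, with `2 C.reads ≤ r m (m + 1)`, and of treewidth at most `θ`.
Let `2 ≤ q ≤ L`, `q ≤ m + 1` and `|Z| ≤ L`.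

1. If `C` (nondeterministic) accepts exactly the valid instances without a triangle of weight zero then
   `2 ^ (m / 2 ^ (24 r + 1)) ≤ L ^ (10000 r² (κ + 1) (θ + 1))`.
2. If moreover `C` has at most one accepting computation for each input (which holds if the gates
   compute functions) then `q ^ (m / 2 ^ (24 r + 1)) ≤ L ^ (10000 r² (κ + 1) (θ + 1))`.
3. If `C` has at most one accepting computation for each input and accepts exactly the valid instances
   with a triangle of weight zero then
   `q ^ (m / 2 ^ (24 r + 1)) ≤ L ^ (10000 r² (κ + 1) (θ + 1)) + 1`.

The circuit has to be correct only for valid instances.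

(B) For all `c`, `κ` and `0 < ε ≤ 1` and all large `m`: if random deterministic (or unambiguous)
circuits of fan-in `κ` whose gates have at most `m ^ c` values (words of `c log m` bits), of
treewidth at most `m ^ (1 - ε)`, always decide exact triangle for `m + 1` vertices correctly, then the
expected number of reads is at least `(ε / 60) m (m + 1) log₂ m`. -/
theorem result :
    (∀ {r κ θ m q L : ℕ} (_ : 1 ≤ r) (_ : 2 ≤ q) (_ : q ≤ L) (_ : q ≤ m + 1)
      {Z : Type} [Fintype Z] (_ : Fintype.card Z ≤ L)
      (C : WCirc (Fin (m + 1) × Fin (m + 1)) (Bool × ℤ) Z)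
      (_ : C.FanIn κ) (_ : C.TreewidthLE θ) (_ : 2 * C.reads ≤ r * (m * (m + 1))),
      ((∀ w, Valid w → (C.Accepts w ↔ ¬ HasZero w)) →
        2 ^ (m / 2 ^ (24 * r + 1)) ≤ L ^ (10000 * r ^ 2 * (κ + 1) * (θ + 1))) ∧
      (C.Unambiguous → (∀ w, Valid w → (C.Accepts w ↔ ¬ HasZero w)) →
        q ^ (m / 2 ^ (24 * r + 1)) ≤ L ^ (10000 * r ^ 2 * (κ + 1) * (θ + 1))) ∧
      (C.Unambiguous → (∀ w, Valid w → (C.Accepts w ↔ HasZero w)) →
        q ^ (m / 2 ^ (24 * r + 1)) ≤ L ^ (10000 * r ^ 2 * (κ + 1) * (θ + 1)) + 1)) ∧
    ∀ (c κ : ℕ) (ε : ℝ), 0 < ε → ε ≤ 1 → ∃ m₀ : ℕ, ∀ m ≥ m₀, ∀ (Z : Type) [Fintype Z],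
      Fintype.card Z ≤ m ^ c → ∀ (Ω : Type) [Fintype Ω] (p : Ω → ℝ), (∀ ω, 0 ≤ p ω) →
      ∑ ω, p ω = 1 → ∀ (C : Ω → WCirc (Fin (m + 1) × Fin (m + 1)) (Bool × ℤ) Z) (θ : ℕ),
        (θ : ℝ) ≤ (m : ℝ) ^ (1 - ε) →
        (∀ ω, (C ω).FanIn κ ∧ (C ω).TreewidthLE θ ∧ (C ω).Unambiguous ∧
          ((∀ w, Valid w → ((C ω).Accepts w ↔ HasZero w)) ∨
            (∀ w, Valid w → ((C ω).Accepts w ↔ ¬ HasZero w)))) →
        ε / 60 * (m * (m + 1) * Real.logb 2 m) ≤ ∑ ω, p ω * (C ω).reads :=
  ⟨fun hr hq hqL hqm _ _ hZ C hκ hθ hR => exact_bounds hr hq hqL hqm hZ C hκ hθ hR, exact_random⟩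

end Pool.Agent.Results.MP_62fbe0_lc.TreewidthTimesReads
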